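import Mathlib
import Pool.Agent.Y228.HX.S6

/-!
# The motivic monodromy conjecture with the roots of `b_f`, for the `χ_y`-genus: the global zeta
# functions of forms and of convenient polynomials with generic coefficients

Let `k ⊂ ℂ` be a field and `f = ∑_j c_j x ^ (v j) + h ∈ k[x_1, …, x_n]`, `f(0) = 0`, in any number of
variables, where `h` is an ARBITRARY polynomial over a subfield `F` of `k` whose exponents are in the
Newton polyhedron `conv {v j} + ℝ_{≥ 0} ^ n` and different from the `v j`, and the coefficients `c_j ∈ k` are
generic: `g(c) ≠ 0` for a certain nonzero polynomial `g` with coefficients in `F`. So for given `h` only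
the coefficients at the vertices of the Newton polyhedron have to be generic. We suppose that `f` is
homogeneous (the singularities are then arbitrary, in particular not isolated) or convenient (some
power of each variable is one of the `x ^ (v j)`).

The zeta function of the problem has, forgetting `X_s` and the action of `μ̂`, the image
`∑_{m ≥ 1} [X_{m,1}] 𝕃 ^ (-n m) T ^ m ∈ 𝓜_k[[T]]`. It is specialised, over any field `K ⊃ k`, by a
ring homomorphism `φ : 𝓜_K → ℚ(u)` which is the `χ_y`-genus on the nondegenerate hypersurfaces in tori
(`ChiY φ`), that is `φ(𝕃) = u` and `φ` satisfies the formula of Danilov and Khovanskii. The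
homomorphism given by the Hodge-Deligne polynomial, `[X] ↦ E(X; u, 1)`, which is
`∑_{p,q} (-1) ^ (p + q) h^{p,q}(X) u ^ p` for smooth projective `X`, has this property, by theorems of
Deligne and of Danilov and Khovanskii (1986). These theorems are not formalised here; the result is
for all `φ` with this property.

The power series is mapped by `φ` into the subring of `ℚ(u)[[T]]` generated over
`ℚ(u)` by `T` and finitely many `1 / (1 - u ^ a T ^ b)` with `a < 0 < b` such that `a / b` is a root of
the local Bernstein-Sato polynomial `b_{f,0}`, hence of `b_f`. This is the statement of Q1 after these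
specialisations. The fibre at the origin (without the action) is treated in part (B) of
`MP_b91a16_ag.ChiYGenus`, the naive zeta functions in `MP_b07157_ag.ChiYGenericCoefficients`, and
`MP_432c1b_ag.ChiYGenusGlobal` is the global statement modulo integers, for nondegenerate `f`.

Method. If the `c_j` are algebraically independent over `F` the functional equation gives an algebraic
relation. If `-σ` is not a root, it follows that for the polyhedra with heights `m ω_j` over the `v j`,
`m` large and `ω` generic, the sums over the cells have no pole at the level `σ`; a linear recurrence in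
`m` brings this back to `m = 0`, where the regular triangulation with heights `ω` computes the Ehrhart
series of the faces and of their cones over `0`, hence the `χ_y`-genera of the hypersurfaces
`f_τ = 0` and `f_τ = 1` (`Pool.Agent.Y228.HX`). Gröbner bases in the Weyl algebra over `F(c_1, …, c_r)` (starting
library) compare the generic Bernstein-Sato polynomial with the one of a single member.
-/

set_option autoImplicit false

namespace Pool.Agent.Results.MP_b48657_ag.ChiYGlobalGeneric

open MvPolynomial Pool.Agent.W428.MOT
open Pool.Agent.W375.MG (zetaW)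
open Pool.Agent.TH216.MF (ratR)
open Pool.Agent.W425.ND (spa)
open Pool.Agent.Y228.HX (ChiY uX Conv InNP)

/-- **The motivic monodromy conjecture in the form with the roots of `b_f`, specialised to the
`χ_y`-genus, for the global zeta functions of the homogeneous or convenient polynomials
`f = ∑_j c_j x ^ (v j) + h` with generic coefficients `c_j`, in any number of variables.**

`spa v c` is the polynomial `∑_j c_j x ^ (v j)`. `InNP v w` says that `w` is in the Newton polyhedron
`conv {v j} + ℚ_{≥ 0} ^ n`: there are rational `l j ≥ 0` with `∑_j l j = 1` and `∑_j l j * v j i ≤ w i` for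
all `i`. `Conv v` (convenient) says that some power of each variable is one of the `x ^ (v j)`.

For a polynomial `f` over `K`, `zetaW f Set.univ` is `∑_{m ≥ 0} [X_{m,1}] 𝕃 ^ (-n m) T ^ m`, `X_{m,1}` the
`m`-jets `ψ` with `f(ψ) = t ^ m mod t ^ (m + 1)` (the constant term plays no role), over the field `K`.
`MK K = K_0(Var_K)[𝕃⁻¹]`, `PowerSeries.map φ` applies `φ` to the coefficients, and `ratR uX S` is the
subring of `ℚ(u)[[T]]` generated over `ℚ(u)` by `T` and the series `1 / (1 - u ^ a T ^ b)`, `(a, b) ∈ S`. The
finite set `S` does not depend on `k`, `c`, `K` and `φ`.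

`IsLocalBFunction f b` says that `b(s) f ^ s = P(s) f ^ (s + 1)` for a differential operator `P(s)`
with (formal, in particular convergent or polynomial) power series at the origin as coefficients;
`b_{f,0}` and `b_f` are such polynomials `b`.

`ChiY φ` says that `φ(𝕃) = u` and that for all `n`, all families of distinct exponents `v j ∈ ℕ ^ n`,
`j ∈ κ`, and all coefficients `c_j ∈ K \ 0` such that `g = ∑_{j ∈ κ} c_j x ^ (v j)` is nondegenerate for all
the faces of its Newton polytope `P` (`NonL v κ c`: for every `w ∈ ℤ ^ n` the sum of the terms on which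
`w` is minimal and its `x_i ∂_i` have no common zero in the torus over the algebraic closure of `K`)
the class of the hypersurface `g = 0` in the torus of dimension `n` (`ZT v κ c`) has the value
`((u - 1) ^ n + (u - 1) ^ (n + 1) E(u)) / u`, where `E ∈ ℚ(u)` is the rational function with the power
series expansion `∑_k #(k P ∩ ℤ ^ n) u ^ k` at `0` (`Expd E`; `Dil v κ k` is `k P ∩ ℤ ^ n`). -/
theorem result {F : Type} [Field F] [Algebra F ℂ] {n r : ℕ} (hr : 0 < r)
    (v : Fin r → Fin n → ℕ) (hv : Function.Injective v) (hv0 : ∀ j, v j ≠ 0)
    (h : MvPolynomial (Fin n) F) (hh : ∀ w ∈ h.support, InNP v fun i => w i)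
    (hvh : ∀ w ∈ h.support, ∀ j, ¬ ∀ i, w i = v j i)
    (hG : (∃ d : ℕ, (∀ j, ∑ i, v j i = d) ∧ ∀ w ∈ h.support, ∑ i, w i = d) ∨ Conv v) :
    ∃ (g : MvPolynomial (Fin r) F) (S : Finset (ℤ × ℤ)), g ≠ 0 ∧ (∀ p ∈ S, p.1 < 0 ∧ 0 < p.2) ∧
      ∀ (k : Type) [Field k] [Algebra F k] [Algebra k ℂ] [IsScalarTower F k ℂ] (c : Fin r → k),
        aeval c g ≠ 0 →
        (∀ p ∈ S, ∀ b : Polynomial ℂ, Pool.Agent.H628R4.TP.IsLocalBFunction
          (spa v (fun j => algebraMap k ℂ (c j)) + MvPolynomial.map (algebraMap F ℂ) h) b →
            b.eval ((p.1 : ℂ) / p.2) = 0) ∧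
        ∀ (K : Type) [Field K] [Algebra k K] (φ : MK K →+* RatFunc ℚ), ChiY φ →
          PowerSeries.map φ (zetaW (spa v (fun j => algebraMap k K (c j)) +
            MvPolynomial.map ((algebraMap k K).comp (algebraMap F k)) h) Set.univ) ∈
              ratR uX S := by
  obtain ⟨g, S, hg, hS, H⟩ := Pool.Agent.Y228.HX.strongE (F := F) hr v hv hv0 h hh hvh
  exact ⟨g, S, hg, hS, fun k _ _ _ _ c hc =>
    ⟨(H k c hc).1, fun K _ _ φ hφ => ((H k c hc).2 K φ hφ).2 hG⟩⟩

end Pool.Agent.Results.MP_b48657_ag.ChiYGlobalGeneric
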