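import Mathlib
import Pool.Agent.Y231.N4.E1
import Pool.Agent.TH216.LX.Lx4

/-!
# The equivariant motivic monodromy conjecture in four variables, generic coefficients

Let `f = ∑_j c_j x ^ (v j) + h` be a polynomial in four variables over a field `k ⊂ ℂ`, where the
`v j` are the vertices of their Newton polyhedron `conv {v j} + ℝ_{≥ 0} ^ 4`, `h` is an ARBITRARY
polynomial over a subfield `F ⊂ k` whose exponents are in this polyhedron, and the coefficients
`c_j ∈ k` are generic: `g(c) ≠ 0` for a certain nonzero polynomial `g` with coefficients in `F`
(`k = F` is allowed). There is NO condition on the Newton polyhedron, and the singularities need not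
be isolated.

* Over `X_s`: if `f` is convenient, the equivariant motivic zeta function of `f`, with coefficients in
the Grothendieck ring of varieties over `X_s = {f = 0}` with good action of the roots of unity,
localised at `𝕃`, lies in the ring generated by `T` and finitely many `1 / (1 - 𝕃 ^ a T ^ b)` with
`a < 0 < b` such that `a / b` is a root of the Bernstein-Sato polynomial of `f`. This is true for
`h = 0`, or more generally under the condition `GlobOK` on the exponents of `h`, except that
`a / b = -2` is allowed if `f` vanishes on a coordinate subspace of codimension two.
* At the origin: for all Newton polyhedra, the same is true for the equivariant motivic zeta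
function of the jets with origin `0`, with coefficients in the Grothendieck ring of `k`-varieties with
good action of the roots of unity, localised at `𝕃`, where the `a / b` are roots of the local
Bernstein-Sato polynomial `b_{f,0}`.

Method. The functional equation gives, for algebraically independent `c_j`, an identity in a
polynomial ring with one variable for every `v j`. The candidate pole of a facet of the Newton
polyhedron is a root if the facet contains a simplex which is not `B1`, a suitable circuit, or if
`-(1, …, 1)` is a combination of independent vertices of a lower face without negative integers as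
coefficients. In four variables every other facet whose candidate pole is not `-1` or `-2` is a
simplex, is `B1`, or it is compact and `B2`: the values of two of the coordinates at the vertices are
`(0, 0)`, `(1, 0)` or `(0, 1)`; and these facets have common directions if they meet in a face which
is not simplicial. The same is true for the candidate pole `-2` unless, for a permutation `π` of the
variables which is not a cycle of length four, all the `x_i x_{π(i)}` are among the `x ^ (v j)`; then
the origin is a nondegenerate critical point of `f`, and `-2` is a root. For the `B2`-faces the part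
of `f` which is linear in two variables gives a further linear relation between the classes of the
varieties `f_τ = 0` and `f_τ = 1` in the torus with their actions of `μ̂`: the locus where a part of
`f` linear in `x_i`, `x_l` takes the value `1` is fibred in affine lines over the other variables
where not both coefficients vanish, and the actions are changed by a torus to make the fibration
equivariant. It follows that for every `q ≥ 2` the factors `1 - q ^ (-a) T ^ N` with `a / N = σ` of the
universal series cancel if `-σ` is not a root; hence they cancel identically and `q` can be replaced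
by `𝕃`. The arcs whose origin is in the torus of a coordinate subspace `≠ {0}` on which `f` vanishes
are treated in the same way.
-/

set_option autoImplicit false

namespace Pool.Agent.Results.MP_b48657_ag.FourVariables

open MvPolynomial Pool.Agent.W428.MOT
open Pool.Agent.TH216.HD Pool.Agent.TH216.HDL
open Pool.Agent.Y231.N4 (GlobOK NoP2 main7 zetaE0 serM_zetaE serM_zetaE0)

/-- **The equivariant motivic monodromy conjecture (Bernstein-Sato form) for the polynomials
`f = ∑_j c_j x ^ (v j) + h` in four variables with generic coefficients `c_j`: over `X_s` under
conditions which hold for convenient `f`, and at the origin for all Newton polyhedra.**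

`poly v c h` is the polynomial `f = ∑_j c_j x ^ (v j) + h`. `InPoly v w` says that `w` is in the Newton
polyhedron `conv {v j} + ℝ_{≥ 0} ^ 4`. `Vertices v` says that the `v j` are the vertices of this
polyhedron: no `v j` is in the Newton polyhedron of the other `v k`.

`zetaE f` is the equivariant motivic zeta function of the problem, and `zetaE0 f` is the equivariant
motivic zeta function `∑_{m ≥ 1} [X_{m,1,0}] 𝕃 ^ (-4 m) T ^ m` at the origin, `X_{m,1,0}` the jets in
`X_{m,1}` with origin `0`; its coefficients are in the Grothendieck ring of varieties over
`Spec k = {0 = 0} ⊂ 𝔸 ^ 0` with good action of `μ̂`, localised at `𝕃`. `InRat 𝕃 S z` says that `z` is in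
the ring generated by `T` and the `1 / (1 - 𝕃 ^ a T ^ b)`, `(a, b) ∈ S`.
`IsBFunction f b` says that `b(s) f ^ s = P(s) f ^ (s + 1)` for a differential operator `P(s)` in the
Weyl algebra, polynomial in `s`; the Bernstein-Sato polynomial `b_f` is one of these polynomials
`b`. `IsLocalBFunction f b` is the same with (formal, in particular convergent) power series at the
origin as coefficients of `P(s)`.

`NoP2 v` says that `f` does not vanish on a coordinate subspace of codimension two. `GlobOK v h` says
the following for every coordinate subspace `{x_i = 0, i ∈ J}`, except the origin, on which `f`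
vanishes: if a `v j` has a coordinate `1` in `J`, then no exponent of `h` which is not one of
the `v k` has the same coordinates in `J` as `v j`. For convenient `f` both are true, and `GlobOK` is
true for `h = 0`. -/
theorem result (F : Type) [Field F] [Algebra F ℂ] {r : ℕ} (hr : 0 < r) (v : Fin r → Fin 4 → ℕ)
    (hV : Vertices v) (hv : Function.Injective v) (hv0 : ∀ j, v j ≠ 0)
    (h : MvPolynomial (Fin 4) F) (hh : ∀ w ∈ h.support, InPoly v w) :
    ∃ g : MvPolynomial (Fin r) F, g ≠ 0 ∧
      ∀ (k : Type) [Field k] [Algebra F k] [Algebra k ℂ] [IsScalarTower F k ℂ] (c : Fin r → k),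
      aeval c g ≠ 0 →
      (GlobOK v h → ∃ S : Finset (ℤ × ℤ),
        (∀ p ∈ S, p.1 < 0 ∧ 0 < p.2 ∧ ((¬ NoP2 v ∧ p.1 = -2 * p.2) ∨ ∀ b : Polynomial ℂ,
          Pool.Agent.H628R4.TP.IsBFunction (poly v (fun j => algebraMap k ℂ (c j)) h) b →
            b.eval ((p.1 : ℂ) / p.2) = 0)) ∧
        InRat (LuMu (poly v c h)) S (zetaE (poly v c h))) ∧
      ∃ S : Finset (ℤ × ℤ),
        (∀ p ∈ S, p.1 < 0 ∧ 0 < p.2 ∧ ∀ b : Polynomial ℂ,
          Pool.Agent.H628R4.TP.IsLocalBFunction (poly v (fun j => algebraMap k ℂ (c j)) h) b →
            b.eval ((p.1 : ℂ) / p.2) = 0) ∧
        InRat (LuMu (0 : MvPolynomial (Fin 0) k)) S (zetaE0 (poly v c h)) := by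
  obtain ⟨g, hg, hgz⟩ := main7 (F := F) hr v hV hv hv0 h hh
  refine ⟨g, hg, fun k _ _ _ _ c hc => ⟨fun hG => ?_, ?_⟩⟩
  · have hk : CharZero k := RingHom.charZero (algebraMap k ℂ)
    obtain ⟨S, hS, -, hz⟩ := hgz (GlobOK v h) (¬ NoP2 v) id (fun _ h => not_not.1 h) k c hc
    refine ⟨S, fun p hp => ?_, ?_⟩
    · obtain ⟨h1, h2, h3⟩ := hS p hp
      exact ⟨h1, h2, h3.imp_right fun h3 b hb => h3 b (Pool.Agent.TH216.LX.isLocal_of hb)⟩
    · obtain ⟨M, hML, hM⟩ := serM_zetaE (poly v c h)
      have h1 := hz _ _ M hML (Or.inr hG)
      rw [hM] at h1
      exact h1
  · have hk : CharZero k := RingHom.charZero (algebraMap k ℂ)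
    obtain ⟨S, hS, -, hz⟩ := hgz False False False.elim (fun h => h.elim) k c hc
    refine ⟨S, fun p hp => ?_, ?_⟩
    · obtain ⟨h1, h2, h3⟩ := hS p hp
      exact ⟨h1, h2, h3.resolve_left fun h => h.1⟩
    · obtain ⟨M, hOM, hML, hM⟩ := serM_zetaE0 (poly v c h)
      have h1 := hz _ _ M hML (Or.inl hOM)
      rw [hM] at h1
      exact h1

end Pool.Agent.Results.MP_b48657_ag.FourVariables
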