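import Mathlib
import Pool.Agent.Y228.GN.Orig

/-!
# The equivariant motivic monodromy conjecture for nondegenerate polynomials in four variables

Let `k ⊂ ℂ` be a field and let `f = ∑_j c_j x ^ (v j) ∈ k[x_1, x_2, x_3, x_4]`, `f(0) = 0`, `c_j ≠ 0`.
There is NO condition on the Newton polyhedron `Γ = conv {v j} + ℝ_{≥ 0} ^ 4`, the coefficients need
not be generic, and the singularities need not be isolated.

* At the origin: if `f` is nondegenerate with respect to the COMPACT faces of `Γ` (the usual
nondegeneracy of Kouchnirenko and Varchenko), then the equivariant motivic zeta function of the jets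
with origin `0`, with coefficients in the Grothendieck ring of `k`-varieties with good action of the
roots of unity, localised at `𝕃`, lies in the ring generated by `T` and finitely many
`1 / (1 - 𝕃 ^ a T ^ b)` with `a < 0 < b` such that `a / b - i` is a root of the local Bernstein-Sato
polynomial `b_{f,0}` for an integer `i`.
* Over `X_s`: if `f` is nondegenerate with respect to all the faces of `Γ`, compact or not, then the same
is true for the equivariant motivic zeta function `Z_f(T)` of the problem, with coefficients in the
Grothendieck ring of varieties over `X_s = {f = 0}` with good action of the roots of unity, under a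
condition (`GlobV`) on the terms of `f` which are not vertices of `Γ`. It is empty for convenient `f`,
and if all the exponents of `f` are vertices of `Γ`; in general it says, for every coordinate subspace
`{x_i = 0, i ∈ J}` different from the origin on which `f` vanishes, that no exponent which is not a
vertex has the same coordinates in `J` as a vertex with a coordinate `1` in `J`.

By the theorem of Malgrange and Kashiwara `exp(2 π i a / b)` is an eigenvalue of the monodromy of `f` at
points of `{f = 0}` near to `0`. The result `FourVariables` for this problem has the roots `a / b`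
themselves, for very general coefficients at the vertices; here only the classes of the roots modulo `ℤ`
are obtained, but for all nondegenerate polynomials. For the topological zeta function the
eigenvalue statement is a theorem of Esterov, Lemahieu and Takeuchi.

Method (`Pool.Agent.Y229.CF`, `Pool.Agent.Y231.N4`, `Pool.Agent.Y228.ND4`, `Pool.Agent.Y228.GN`). The
functional equation of the Bernstein-Sato polynomial of `f` is deformed to very general coefficients; the
result is an algebraic relation between difference operators, which is restricted to the vertices.
Every facet of `Γ` whose candidate pole is not an integer contains a lower simplex which is not `B1`,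
or a suitable circuit, or a suitable point (in these three cases the relation shows that the
candidate pole is a root modulo integers), or it is a simplex, or `B1`, or `B2` in two directions. If
only the last three types occur at a level, the relation and the linear relations between the
equivariant classes of the zero sets of the face polynomials show that the factors
`1 - 𝕃 ^ a T ^ b` of this level cancel. For the arcs whose origin is in the torus of a coordinate
subspace `{x_i = 0, i ∈ J}` on which `f` vanishes, the exponents which are not vertices are added to a
set `τ` of vertices if their coordinates in `J` are convex combinations of those of `τ`; this is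
compatible with the relations by `GlobV`.
-/

set_option autoImplicit false

namespace Pool.Agent.Results.MP_b48657_ag.NondegenerateFourVariables

open MvPolynomial Pool.Agent.W428.MOT
open Pool.Agent.W425.ND (spa)
open Pool.Agent.Y229.CF (NondegC)
open Pool.Agent.Y228.GN (NondegP GlobV nd4G nd4c)
open Pool.Agent.Y231.N4 (zetaE0 serM_zetaE serM_zetaE0)

theorem inRat_mono {R : Type} [CommRing R] {u : Rˣ} {S T : Set (ℤ × ℤ)} (h : S ⊆ T)
    {z : PowerSeries R} (hz : InRat u S z) : InRat u T z := by
  unfold InRat at hz ⊢
  refine Algebra.adjoin_mono ?_ hz
  rintro g (hg | ⟨p, hp, hg⟩)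
  · exact Or.inl hg
  · exact Or.inr ⟨p, h hp, hg⟩

/-- **The equivariant motivic monodromy conjecture (Bernstein-Sato form modulo integers) for the
polynomials `f = ∑_j c_j x ^ (v j)` in four variables which are nondegenerate for the compact faces: at
the origin, and over `X_s` if `f` is nondegenerate for all the faces of the Newton polyhedron and
satisfies `GlobV`.**

`spa v c` is the polynomial `f = ∑_j c_j x ^ (v j)`. `NondegC v c` says that for every `w ∈ ℝ ^ 4` with
positive coordinates the face polynomial of `f` (the sum of the terms `c_j x ^ (v j)` on which
`⟨w, v j⟩` is minimal) and its derivatives `x_i ∂_i` have no common zero in `(ℂ \ 0) ^ 4`; `NondegP v c`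
says this for every `w` with nonnegative coordinates.

`zetaE f` is the equivariant motivic zeta function of the problem, and `zetaE0 f` is the equivariant
motivic zeta function `∑_{m ≥ 1} [X_{m,1,0}] 𝕃 ^ (-4 m) T ^ m` at the origin, `X_{m,1,0}` the jets in
`X_{m,1}` with origin `0`; its coefficients are in the Grothendieck ring of varieties over
`Spec k = {0 = 0} ⊂ 𝔸 ^ 0` with good action of `μ̂`, localised at `𝕃`. `InRat 𝕃 S z` says that `z` is in
the ring generated by `T` and the `1 / (1 - 𝕃 ^ a T ^ b)`, `(a, b) ∈ S`. `IsLocalBFunction f b` says that
`b(s) f ^ s = P(s) f ^ (s + 1)` for a differential operator `P(s)`, polynomial in `s`, with (formal, in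
particular convergent or polynomial) power series at the origin as coefficients; `b_{f,0}` and `b_f`
are such polynomials.

`GlobV v` says the following for every coordinate subspace `{x_i = 0, i ∈ J}`, except the origin, on
which `f` vanishes: if a vertex `v j` of the Newton polyhedron has a coordinate `1` in `J`, then no
`v l` which is not a vertex has the same coordinates in `J` as `v j`. -/
theorem result (k : Type) [Field k] [Algebra k ℂ] {r : ℕ} (hr : 0 < r)
    (v : Fin r → Fin 4 → ℕ) (c : Fin r → k) (hv : Function.Injective v) (hv0 : ∀ j, v j ≠ 0)
    (hc : ∀ j, c j ≠ 0) (hnd : NondegC v (fun j => algebraMap k ℂ (c j))) :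
    ∃ S : Finset (ℤ × ℤ),
      (∀ p ∈ S, p.1 < 0 ∧ 0 < p.2 ∧ ∀ b : Polynomial ℂ,
        Pool.Agent.H628R4.TP.IsLocalBFunction (spa v (fun j => algebraMap k ℂ (c j))) b →
          ∃ i : ℤ, b.eval ((p.1 : ℂ) / p.2 - i) = 0) ∧
      InRat (LuMu (0 : MvPolynomial (Fin 0) k)) S (zetaE0 (spa v c)) ∧
      (NondegP v (fun j => algebraMap k ℂ (c j)) → GlobV v →
        InRat (LuMu (spa v c)) S (zetaE (spa v c))) := by
  classical
  have hk : CharZero k := RingHom.charZero (algebraMap k ℂ)
  obtain ⟨S, hS, hz⟩ := nd4c hr v hv hv0 c hc hnd
  obtain ⟨M, hOM, hML, hM⟩ := serM_zetaE0 (spa v c)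
  have h1 := hz _ rfl _ _ M hML hOM
  rw [hM] at h1
  by_cases hG : NondegP v (fun j => algebraMap k ℂ (c j)) ∧ GlobV v
  · obtain ⟨S1, hS1, -, hz1⟩ := nd4G hr v hv hv0 c hc hG.1 True (fun _ => hG.2)
    obtain ⟨M1, hML1, hM1⟩ := serM_zetaE (spa v c)
    have h2 := hz1 _ rfl _ _ M1 hML1 (Or.inr trivial)
    rw [hM1] at h2
    refine ⟨S ∪ S1, fun p hp => ?_, ?_, fun _ _ => ?_⟩
    · rcases Finset.mem_union.1 hp with hp | hp
      · exact hS p hp
      · exact hS1 p hp
    · exact inRat_mono (by rw [Finset.coe_union]; exact Set.subset_union_left) h1
    · exact inRat_mono (by rw [Finset.coe_union]; exact Set.subset_union_right) h2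
  · exact ⟨S, hS, h1, fun h3 h4 => absurd ⟨h3, h4⟩ hG⟩

end Pool.Agent.Results.MP_b48657_ag.NondegenerateFourVariables
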