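import Mathlib
import Pool.Agent.Y228.GN.Nv

/-!
# The equivariant motivic monodromy conjecture: nondegenerate polynomials, conditions on the vertices

Let `k` be a field, `k ⊂ ℂ`, and let `f = ∑_j c_j x ^ (v j) ∈ k[x_1, …, x_n]`, `f(0) = 0`, `c_j ≠ 0`, be
nondegenerate with respect to the COMPACT faces of its Newton polyhedron `Γ` at the origin (the usual
nondegeneracy of Kouchnirenko and Varchenko). The coefficients need not be generic; the number of
variables and the singularities are arbitrary (they need not be isolated).

For a facet of the Newton polyhedron with primitive inner normal vector `a ∈ ℕ ^ n` let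
`N_a = min ⟨a, ·⟩ > 0` be its order and `-|a| / N_a` its candidate pole. Every candidate pole is assumed
to be an integer, or to agree modulo integers with the candidate pole of a facet which contains
a suitable simplex which is not of type `B1`, or to satisfy the following: at every vertex, the
facets of the candidate pole through this vertex are simplices or `B1`-facets in a common direction,
which may depend on the vertex. Only the vertices of the Newton polyhedron count in the third case.
In particular all simplicial Newton polyhedra are allowed, and all polyhedra all of whose facets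
which are not simplices are `B1`-facets in a common direction.

* At the origin: the equivariant motivic zeta function of the jets with origin `0`, with
coefficients in the Grothendieck ring of `k`-varieties with good action of the roots of unity,
localised at `𝕃`, lies in the ring generated by `T` and finitely many `1 / (1 - 𝕃 ^ a T ^ b)` with
`a < 0 < b` such that `a / b - i` is a root of the local Bernstein-Sato polynomial `b_{f,0}` for an
integer `i`.
* Over `X_s`: if `f` is nondegenerate for all the faces of `Γ`, compact or not, then the same is true
for the equivariant motivic zeta function `Z_f(T)` of the problem, with coefficients in the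
Grothendieck ring of varieties over `X_s = {f = 0}` with good action of the roots of unity, under the
condition `GlobW` on the terms of `f` which are not vertices: for every coordinate subspace
`{x_i = 0, i ∈ J}` different from the origin on which `f` vanishes, no exponent which is not a vertex
has the same coordinates in `J` as a vertex with a coordinate `1` in `J`. It is empty for
convenient `f`, and if all the exponents of `f` are vertices of `Γ`.

By the theorem of Malgrange and Kashiwara `exp(2 π i a / b)` is an eigenvalue of the monodromy of `f` at
points of `{f = 0}` near to `0`. The result `NondegenerateEquivariant` for this problem does not allow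
candidate poles which come only from `B1`-facets; `SimplicialOrB1Facets` has generic coefficients.

Method (`Pool.Agent.TH216`, `Pool.Agent.Y229.CF`, `Pool.Agent.Y228.GN`). The functional equation of
the Bernstein-Sato polynomial of `f` is deformed to very general coefficients; the result is an
algebraic relation between difference operators, which is restricted to the vertices. The relation and
the linear relations between the equivariant classes of the zero sets of the face polynomials which
come from the variables with exponent `0` or `1` show that the factors `1 - 𝕃 ^ a T ^ b` of a level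
with the property above cancel if it does not give a root. For the arcs whose origin is in the torus
of a coordinate subspace `{x_i = 0, i ∈ J}` on which `f` vanishes, the exponents which are not
vertices are added to a set `τ` of vertices if their coordinates in `J` are convex combinations of
those of `τ`; this is compatible with the relations by `GlobW`. At the origin only the compact faces
are used, since the coefficients of the series are sums over the strata of the arcs with origin `0`.
-/

set_option autoImplicit false

namespace Pool.Agent.Results.MP_b48657_ag.NondegenerateVertices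

open MvPolynomial Pool.Agent.W428.MOT Pool.Agent.TH216.HD
open Pool.Agent.TH216.HDNL
open Pool.Agent.W425.ND (spa)
open Pool.Agent.Y229.CF (NondegC)
open Pool.Agent.Y228.GN (NondegP GlobW nvC nvG)
open Pool.Agent.Y231.N4 (zetaE0 serM_zetaE0)

theorem inRat_mono {R : Type} [CommRing R] {u : Rˣ} {S T : Set (ℤ × ℤ)} (h : S ⊆ T)
    {z : PowerSeries R} (hz : InRat u S z) : InRat u T z := by
  unfold InRat at hz ⊢
  refine Algebra.adjoin_mono ?_ hz
  rintro g (hg | ⟨p, hp, hg⟩)
  · exact Or.inl hg
  · exact Or.inr ⟨p, h hp, hg⟩

/-- **The equivariant motivic monodromy conjecture (Bernstein-Sato form modulo integers) for all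
polynomials `f = ∑_j c_j x ^ (v j)` over `k ⊂ ℂ` which are nondegenerate for the compact faces of their
Newton polyhedron and satisfy `HypVL`: at the origin, and over `X_s` if `f` is nondegenerate for all the
faces and satisfies `GlobW`.**

`spa v c` is the polynomial `f = ∑_j c_j x ^ (v j)`. `NondegC v c` says that for every `w ∈ ℝ ^ n` with
positive coordinates the face polynomial of `f` (the sum of the terms `c_j x ^ (v j)` on which
`⟨w, v j⟩` is minimal) and its derivatives `x_i ∂_i` have no common zero in `(ℂ \ 0) ^ n`; `NondegP v c`
says this for every `w` with nonnegative coordinates. `V` is a set of exponents of `f` such that all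
the exponents of `f` are in `conv {v j, j ∈ V} + ℝ_{≥ 0} ^ n` (`Spans v V`), for instance the set of
the vertices of the Newton polyhedron. `GlobW v V` says the following for every coordinate subspace
`{x_i = 0, i ∈ J}`, except the origin, on which `f` vanishes: if a `v j`, `j ∈ V`, has a coordinate `1` in
`J`, then no `v l`, `l ∉ V`, has the same coordinates in `J` as `v j`.

`HypVL v V` says that for every ray `a` of the normal fan of the Newton polyhedron (`IsRay v a`)
with `N_a := ordA v a = min_j ⟨a, v j⟩ > 0` one of the following holds:
* `N_a` divides `|a|` (the candidate pole is an integer);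
* `|a| / N_a - |a'| / N_{a'} ∈ ℤ` for some `a' ∈ ℕ ^ n` with `N_{a'} > 0` and `NonB1 v True a'`: there is a
  set `J` of `#{i | a' i ≠ 0}` elements with `⟨a', v j⟩ = N_{a'}` for `j ∈ J` such that the vectors
  `(v j i)_{a' i ≠ 0}`, `j ∈ J`, are linearly independent, such that no variable `x_i` with
  `a' i ≠ 0` occurs in exactly one of the monomials `x ^ (v j)`, `j ∈ J`, and there with exponent `1`,
  and such that (a condition only if some `a' i = 0`) for all `l` with `⟨a', v l⟩ = N_{a'}`, if `v l`
  agrees with `∑_{j ∈ J} c_j (v j)` in the coordinates `i` with `a' i ≠ 0`, then
  `∑_j c_j s(v j) ≤ s(v l)`, `s(w) = ∑_{a' i = 0} w_i`;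
* `LocVL v V σ` for `σ = lev v a = |a| / N_a`: for every `j1 ∈ V` there is a variable `x_i` such that
  each of the rays `a'` with `N_{a'} > 0`, `|a'| / N_{a'} = σ` and `⟨a', v j1⟩ = N_{a'}` (the facets
  through `v j1`) satisfies one of
  - its facet is a simplex (`SimpVL v V a'`): the vectors `(v j i)_{a' i ≠ 0}`, for the `j ∈ V` with
    `⟨a', v j⟩ = N_{a'}`, are linearly independent;
  - it is B1 in the direction `i` (`B1VL v V i a'`): `a' i ≠ 0`, and exactly one of the monomials
    `x ^ (v j)`, `j ∈ V`, with `⟨a', v j⟩ = N_{a'}` is divisible by `x_i`, and it is not divisible by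
    `x_i ^ 2`.

`zetaE f` is the equivariant motivic zeta function of the problem, and `zetaE0 f` is the equivariant
motivic zeta function `∑_{m ≥ 1} [X_{m,1,0}] 𝕃 ^ (-n m) T ^ m` at the origin, `X_{m,1,0}` the jets in
`X_{m,1}` with origin `0`; its coefficients are in the Grothendieck ring of varieties over
`Spec k = {0 = 0} ⊂ 𝔸 ^ 0` with good action of `μ̂`, localised at `𝕃`. `InRat 𝕃 S z` says that `z` is in
the ring generated by `T` and the `1 / (1 - 𝕃 ^ a T ^ b)`, `(a, b) ∈ S`. `IsLocalBFunction f b` says that
`b(s) f ^ s = P(s) f ^ (s + 1)` for a differential operator `P(s)`, polynomial in `s`, with (formal, in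
particular convergent or polynomial) power series at the origin as coefficients; `b_{f,0}` and `b_f`
are such polynomials. -/
theorem result (k : Type) [Field k] [Algebra k ℂ] {n r : ℕ} (hr : 0 < r)
    (v : Fin r → Fin n → ℕ) (c : Fin r → k) (hv : Function.Injective v) (hv0 : ∀ j, v j ≠ 0)
    (hc : ∀ j, c j ≠ 0) (hnd : NondegC v (fun j => algebraMap k ℂ (c j)))
    (V : Finset (Fin r)) (hV : Spans v V) (hL : HypVL v V) :
    ∃ S : Finset (ℤ × ℤ),
      (∀ p ∈ S, p.1 < 0 ∧ 0 < p.2 ∧ ∀ b : Polynomial ℂ,
        Pool.Agent.H628R4.TP.IsLocalBFunction (spa v (fun j => algebraMap k ℂ (c j))) b →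
          ∃ i : ℤ, b.eval ((p.1 : ℂ) / p.2 - i) = 0) ∧
      InRat (LuMu (0 : MvPolynomial (Fin 0) k)) S (zetaE0 (spa v c)) ∧
      (NondegP v (fun j => algebraMap k ℂ (c j)) → GlobW v V →
        InRat (LuMu (spa v c)) S (zetaE (spa v c))) := by
  classical
  have hk : CharZero k := RingHom.charZero (algebraMap k ℂ)
  obtain ⟨S, hS, hz⟩ := nvC hr v hv hv0 c hc hnd V hV hL
  obtain ⟨M, hOM, hML, hM⟩ := serM_zetaE0 (spa v c)
  have h1 := hz _ rfl _ _ M hML hOM
  rw [hM] at h1
  by_cases hG : NondegP v (fun j => algebraMap k ℂ (c j)) ∧ GlobW v V
  · obtain ⟨S1, hS1, -, h2⟩ := nvG hr v hv hv0 c hc hG.1 V hV hL hG.2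
    refine ⟨S ∪ S1, fun p hp => ?_, ?_, fun _ _ => ?_⟩
    · rcases Finset.mem_union.1 hp with hp | hp
      · exact hS p hp
      · exact hS1 p hp
    · exact inRat_mono (by rw [Finset.coe_union]; exact Set.subset_union_left) h1
    · exact inRat_mono (by rw [Finset.coe_union]; exact Set.subset_union_right) h2
  · exact ⟨S, hS, h1, fun h3 h4 => absurd ⟨h3, h4⟩ hG⟩

end Pool.Agent.Results.MP_b48657_ag.NondegenerateVertices
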